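import Pool.Agent.H9.Eq123

set_option autoImplicit false

namespace Pool.Agent.Results.MP_3faef8_co.Counter

open Pool.Agent.H9.Eq123

theorem result : ∃ (V : Type) (_ : Fintype V) (_ : DecidableEq V) (G : SimpleGraph V)
    (_ : DecidableRel G.Adj), Nice G ∧ ¬ Nonempty (G ≃g (⊤ : SimpleGraph (Fin 4))) ∧
      ∀ k ≤ 3, ∀ l : Sym2 V → ℕ, ¬ ProperEquitable G k l :=
  ⟨Fin 7, inferInstance, inferInstance, H, inferInstance, nice, not_iso, main⟩

end Pool.Agent.Results.MP_3faef8_co.Counter
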